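import Pool.Agent.Lib.MP_5349a4_pr.M.Iface4
import Pool.Agent.Lib.MP_5349a4_pr.M.Base

/-!
# PROC (11.1): existence of the Poisson process, as a product over the unit cubes
-/

set_option autoImplicit false
set_option linter.all false
open MeasureTheory Set ProbabilityTheory
open scoped ENNReal NNReal

namespace Pool.Agent.Lib.MP_5349a4_pr.H47.Proc

variable {d : ℕ}

/-! ## Cubes -/

/-- the cube of a point -/
noncomputable def fl (x : Eu d) : Fin d → ℤ := fun i => ⌊x i⌋

lemma fl_meas : Measurable (fl : Eu d → Fin d → ℤ) := by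
  refine measurable_pi_iff.2 fun i => ?_
  have h : Measurable fun x : Eu d => x i := (EuclideanSpace.proj i).continuous.measurable
  exact Int.measurable_floor.comp h

lemma fl_add (x : Eu d) (z : Fin d → ℤ) : fl (x + ivec z) = fl x + z := by
  funext i
  simp only [fl, Pi.add_apply]
  have : (x + ivec z) i = x i + (z i : ℝ) := rfl
  rw [this, Int.floor_add_intCast]

lemma ivec_add (z w : Fin d → ℤ) : ivec (z + w) = ivec z + ivec w := by
  ext i
  change ((z i + w i : ℤ) : ℝ) = (z i : ℝ) + (w i : ℝ)
  push_cast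
  rfl

lemma ivec_neg (z : Fin d → ℤ) : ivec (-z) = -ivec z := by
  ext i
  change ((-(z i) : ℤ) : ℝ) = -(z i : ℝ)
  push_cast
  rfl

lemma ivec_zero : ivec (0 : Fin d → ℤ) = 0 := by
  ext i
  change ((0 : ℤ) : ℝ) = 0
  simp

/-- the unit cube -/
def Q0 (d : ℕ) : Set (Eu d) := {x | fl x = 0}

/-- union of cubes -/
def WW (F : Finset (Fin d → ℤ)) : Set (Eu d) := {x | fl x ∈ F}

lemma meas_fl (A : Set (Fin d → ℤ)) : MeasurableSet {x : Eu d | fl x ∈ A} :=
  fl_meas (Set.to_countable A).measurableSet

lemma meas_Q0 : MeasurableSet (Q0 d) := meas_fl {0}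

lemma meas_WW (F : Finset (Fin d → ℤ)) : MeasurableSet (WW F) := meas_fl (F : Set (Fin d → ℤ))

lemma bdd_WW (F : Finset (Fin d → ℤ)) : Bornology.IsBounded (WW F) := by
  obtain ⟨R, hR⟩ : ∃ R : ℝ, ∀ z ∈ F, ∀ i, |(z i : ℝ)| ≤ R := by
    classical
    refine ⟨∑ z ∈ F, ∑ i, |(z i : ℝ)|, fun z hz i => ?_⟩
    calc |(z i : ℝ)| ≤ ∑ i, |(z i : ℝ)| :=
          Finset.single_le_sum (f := fun i => |(z i : ℝ)|) (fun _ _ => abs_nonneg _)
            (Finset.mem_univ i)
      _ ≤ ∑ z ∈ F, ∑ i, |(z i : ℝ)| :=
          Finset.single_le_sum (f := fun z : Fin d → ℤ => ∑ i, |(z i : ℝ)|)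
            (fun _ _ => Finset.sum_nonneg fun _ _ => abs_nonneg _) hz
  refine (isBounded_iff_forall_norm_le).2 ⟨Real.sqrt (∑ _i : Fin d, (R + 1) ^ 2), fun x hx => ?_⟩
  rw [EuclideanSpace.norm_eq]
  apply Real.sqrt_le_sqrt
  refine Finset.sum_le_sum fun i _ => ?_
  have h1 := hR (fl x) hx i
  have h2 : |x i| ≤ R + 1 := by
    have h3 : ((fl x i : ℤ) : ℝ) ≤ x i := Int.floor_le (x i)
    have h4 : x i < ((fl x i : ℤ) : ℝ) + 1 := Int.lt_floor_add_one (x i)
    rw [abs_le] at h1 ⊢
    constructor <;> linarith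
  rw [Real.norm_eq_abs]
  exact pow_le_pow_left₀ (abs_nonneg _) h2 2

lemma fin_fl {A : Set (Eu d)} (hA : Bornology.IsBounded A) : (fl '' A).Finite := by
  obtain ⟨R, hR⟩ := isBounded_iff_forall_norm_le.1 hA
  have h1 : fl '' A ⊆ Set.pi univ fun _ : Fin d => Set.Icc (-(⌈|R|⌉ + 1) : ℤ) (⌈|R|⌉ + 1) := by
    rintro z ⟨x, hx, rfl⟩ i -
    have h2 : |x i| ≤ |R| := by
      have h3 := EuclideanSpace.norm_eq x
      have h4 : ‖x i‖ ≤ ‖x‖ := PiLp.norm_apply_le x i
      exact (h4.trans (hR x hx)).trans (le_abs_self R)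
    have h5 : (|R| : ℝ) ≤ (⌈|R|⌉ : ℤ) := Int.le_ceil _
    rw [abs_le] at h2
    have h3 : ((fl x i : ℤ) : ℝ) ≤ x i := Int.floor_le (x i)
    have h4 : x i < ((fl x i : ℤ) : ℝ) + 1 := Int.lt_floor_add_one (x i)
    constructor
    · have : ((-(⌈|R|⌉ + 1) : ℤ) : ℝ) < ((fl x i : ℤ) : ℝ) + 1 := by push_cast; linarith
      have h6 : (-(⌈|R|⌉ + 1) : ℤ) < fl x i + 1 := by exact_mod_cast this
      omega
    · have : ((fl x i : ℤ) : ℝ) ≤ ((⌈|R|⌉ + 1 : ℤ) : ℝ) := by push_cast; linarith
      exact_mod_cast this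
  exact (Set.Finite.pi' fun _ => Set.finite_Icc _ _).subset
    (fun z hz i => h1 hz i (mem_univ i))

lemma leb_cube (z : Fin d → ℤ) :
    (leb 1 (Q0 d)).map (fun y => y + ivec z) = leb 1 {x : Eu d | fl x = z} := by
  have h1 : MeasurePreserving (fun y : Eu d => y + ivec z) volume volume :=
    measurePreserving_add_right volume (ivec z)
  have he : MeasurableEmbedding (fun y : Eu d => y + ivec z) :=
    (Homeomorph.addRight (ivec z)).measurableEmbedding
  have h2 := h1.restrict_preimage_emb he {x : Eu d | fl x = z}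
  have h3 : (fun y : Eu d => y + ivec z) ⁻¹' {x : Eu d | fl x = z} = Q0 d := by
    ext x
    simp only [mem_preimage, mem_setOf_eq, fl_add, Q0]
    constructor
    · intro h
      exact add_eq_right.1 h
    · intro h
      rw [h, zero_add]
  rw [h3] at h2
  unfold leb
  rw [Measure.map_smul, h2.map_eq]

/-! ## The process -/

/-- sample space -/
abbrev Om (d : ℕ) : Type := (Fin d → ℤ) → Cfg (Eu d)

/-- the configuration -/
def SS (ω : Om d) : Set (Eu d) := {x | x - ivec (fl x) ∈ pt (ω (fl x))}

/-- the configuration in finitely many cubes -/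
def UU (F : Finset (Fin d → ℤ)) (ω : Om d) : Set (Eu d) :=
  {x | fl x ∈ F ∧ x - ivec (fl x) ∈ pt (ω (fl x))}

/-- one cube -/
def one (z : Fin d → ℤ) (η : Cfg (Eu d)) : Set (Eu d) := {x | fl x = z ∧ x - ivec z ∈ pt η}

lemma one_eq (z : Fin d → ℤ) (η : Cfg (Eu d)) :
    one z η = (fun y => y + ivec z) '' (pt η ∩ Q0 d) := by
  ext x
  simp only [one, mem_setOf_eq, mem_image, mem_inter_iff, Q0]
  constructor
  · rintro ⟨h1, h2⟩
    refine ⟨x - ivec z, ⟨h2, ?_⟩, sub_add_cancel _ _⟩
    have h3 := fl_add (x - ivec z) z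
    rw [sub_add_cancel, h1] at h3
    exact (add_eq_right.1 h3.symm)
  · rintro ⟨y, ⟨h1, h2⟩, rfl⟩
    refine ⟨by rw [fl_add, h2, zero_add], ?_⟩
    rw [add_sub_cancel_right]
    exact h1

lemma UU_insert [DecidableEq (Fin d → ℤ)] (F : Finset (Fin d → ℤ)) (z : Fin d → ℤ) (hz : z ∉ F)
    (ω : Om d) (η : Cfg (Eu d)) :
    UU (insert z F) (Function.update ω z η) = one z η ∪ UU F ω := by
  ext x
  simp only [UU, one, mem_setOf_eq, mem_union, Finset.mem_insert]
  by_cases hx : fl x = z
  · have h1 : fl x ∉ F := by rw [hx]; exact hz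
    constructor
    · rintro ⟨-, h2⟩
      left
      refine ⟨hx, ?_⟩
      rw [hx, Function.update_self] at h2
      exact h2
    · rintro (⟨-, h2⟩ | ⟨h2, -⟩)
      · refine ⟨Or.inl hx, ?_⟩
        rw [hx, Function.update_self]
        exact h2
      · exact absurd h2 h1
  · rw [Function.update_of_ne hx]
    constructor
    · rintro ⟨h2 | h2, h3⟩
      · exact absurd h2 hx
      · exact Or.inr ⟨h2, h3⟩
    · rintro (⟨h2, -⟩ | ⟨h2, h3⟩)
      · exact absurd h2 hx
      · exact ⟨Or.inr h2, h3⟩

lemma UU_insert' [DecidableEq (Fin d → ℤ)] (F : Finset (Fin d → ℤ)) (z : Fin d → ℤ)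
    (hz : z ∉ F) (ω : Om d) : UU (insert z F) ω = one z (ω z) ∪ UU F ω := by
  have h := UU_insert F z hz ω (ω z)
  rw [Function.update_eq_self] at h
  exact h

lemma SS_inter {V : Set (Eu d)} {F : Finset (Fin d → ℤ)} (hV : V ⊆ WW F) (ω : Om d) :
    SS ω ∩ V = UU F ω ∩ V := by
  ext x
  constructor
  · rintro ⟨h1, h2⟩
    exact ⟨⟨hV h2, h1⟩, h2⟩
  · rintro ⟨h1, h2⟩
    exact ⟨h1.2, h2⟩

section maps

variable (mrestr : MRestrStatement) (mops : MOpsStatement)

include mrestr in
lemma exists_restr (A : Set (Eu d)) (hA : MeasurableSet A) :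
    ∃ r : Cfg (Eu d) → Cfg (Eu d), Measurable r ∧ ∀ ω, pt (r ω) = pt ω ∩ A := by
  obtain ⟨r, h1, h2⟩ := mrestr Unit (Eu d) (univ ×ˢ A) (MeasurableSet.univ.prod hA)
  refine ⟨fun ω => r ((), ω), h1.comp (measurable_const.prodMk measurable_id), fun ω => ?_⟩
  rw [h2]
  ext x
  simp

include mrestr mops in
lemma exists_one (z : Fin d → ℤ) :
    ∃ c : Cfg (Eu d) → Cfg (Eu d), Measurable c ∧ ∀ η, pt (c η) = one z η := by
  obtain ⟨r, h1, h2⟩ := exists_restr mrestr (Q0 d) meas_Q0
  obtain ⟨m, h3, h4⟩ := mops.2.2 (Eu d) (Eu d) (fun y => y + ivec z)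
    (measurable_id.add_const _)
  refine ⟨m ∘ r, h3.comp h1, fun η => ?_⟩
  rw [Function.comp_apply, h4, h2, one_eq]

include mrestr mops in
lemma exists_UU (F : Finset (Fin d → ℤ)) :
    ∃ m : Om d → Cfg (Eu d), Measurable m ∧ ∀ ω, pt (m ω) = UU F ω := by
  classical
  induction F using Finset.induction_on with
  | empty =>
    refine ⟨fun _ => ⟨0, fun i => i.elim0⟩, measurable_const, fun ω => ?_⟩
    ext x
    simp [UU, pt]
  | insert z F hz ih =>
    obtain ⟨m, h1, h2⟩ := ih
    obtain ⟨c, h3, h4⟩ := exists_one mrestr mops z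
    obtain ⟨a, h5, h6⟩ := mops.1 (Eu d)
    refine ⟨fun ω => a (c (ω z), m ω),
      h5.comp ((h3.comp (measurable_pi_apply z)).prodMk h1), fun ω => ?_⟩
    rw [h6, h4, h2, UU_insert' F z hz]

end maps

/-! ## The law -/

section law

variable {ι X : Type} [MeasurableSpace X]

/-- resampling one coordinate -/
lemma map_update [DecidableEq ι] (μ : Measure X) [IsProbabilityMeasure μ] (z : ι) :
    (μ.prod (Measure.infinitePi fun _ : ι => μ)).map
      (fun q : X × (ι → X) => Function.update q.2 z q.1) = Measure.infinitePi fun _ : ι => μ := by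
  have hm : Measurable fun q : X × (ι → X) => Function.update q.2 z q.1 := by
    refine measurable_pi_iff.2 fun i => ?_
    by_cases h : i = z
    · subst h
      simp only [Function.update_self]
      exact measurable_fst
    · simp only [Function.update_of_ne h]
      exact (measurable_pi_apply i).comp measurable_snd
  refine Measure.eq_infinitePi _ fun s t ht => ?_
  rw [Measure.map_apply hm (MeasurableSet.pi s.countable_toSet fun i _ => ht i)]
  have h1 : (fun q : X × (ι → X) => Function.update q.2 z q.1) ⁻¹' (Set.pi (s : Set ι) t) =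
      (if z ∈ s then t z else univ) ×ˢ (Set.pi ((s.erase z : Finset ι) : Set ι) t) := by
    ext q
    simp only [mem_preimage, Set.mem_pi, mem_prod, Finset.mem_coe, Finset.mem_erase]
    constructor
    · intro h
      constructor
      · split_ifs with hz
        · have := h z hz
          rw [Function.update_self] at this
          exact this
        · trivial
      · rintro i ⟨hne, hi⟩
        have := h i hi
        rw [Function.update_of_ne hne] at this
        exact this
    · rintro ⟨h2, h3⟩ i hi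
      by_cases hz : i = z
      · subst hz
        rw [if_pos hi] at h2
        rw [Function.update_self]
        exact h2
      · rw [Function.update_of_ne hz]
        exact h3 i ⟨hz, hi⟩
  rw [h1, Measure.prod_prod, Measure.infinitePi_pi _ (fun i _ => ht i)]
  by_cases hz : z ∈ s
  · rw [if_pos hz, Finset.mul_prod_erase s (fun i => μ (t i)) hz]
  · rw [if_neg hz, measure_univ, one_mul, Finset.erase_eq_of_notMem hz]

end law

/-- the main induction -/
lemma law_UU (prob : ProbStatement) (super : SuperStatement) (img : ImgStatement)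
    (res : ResStatement) (mrestr : MRestrStatement) (mops : MOpsStatement) (hd : 1 ≤ d)
    (hp : IsProbabilityMeasure (PL (leb 1 (Q0 d)))) (hfin : ∀ F : Finset (Fin d → ℤ),
      IsFiniteMeasure (leb 1 (WW F))) (F : Finset (Fin d → ℤ)) :
    ∀ g : Set (Eu d) → ℝ≥0∞, CM g →
      ∫⁻ ω, g (UU F ω) ∂(Measure.infinitePi fun _ : Fin d → ℤ => PL (leb 1 (Q0 d))) =
        ∫⁻ ω', g (pt ω') ∂PL (leb 1 (WW F)) := by
  classical
  induction F using Finset.induction_on with
  | empty =>
    intro g hg
    have h0 : leb 1 (WW (∅ : Finset (Fin d → ℤ))) = 0 := by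
      unfold leb
      have : WW (∅ : Finset (Fin d → ℤ)) = ∅ := by ext x; simp [WW]
      rw [this, Measure.restrict_empty, smul_zero]
    have h1 : ∀ ω : Om d, UU ∅ ω = ∅ := by intro ω; ext x; simp [UU]
    simp only [h1]
    rw [lintegral_const, measure_univ, mul_one, h0]
    obtain ⟨h2, h3⟩ := prob (Eu d) 0
    have h4 := h3 univ MeasurableSet.univ (by simp)
    have h5 : ∀ᵐ ω ∂PL (0 : Measure (Eu d)), g (pt ω) = g ∅ := by
      filter_upwards [h4] with ω hω
      congr 1
      ext p
      constructor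
      · intro hp
        exact absurd (mem_univ p) (hω p hp)
      · intro hp
        exact absurd hp (notMem_empty p)
    rw [lintegral_congr_ae h5, lintegral_const, measure_univ, mul_one]
  | insert z F hz ih =>
    intro g hg
    obtain ⟨c, hc1, hc2⟩ := exists_one mrestr mops z (d := d)
    obtain ⟨a, ha1, ha2⟩ := mops.1 (Eu d)
    obtain ⟨mI, hmI1, hmI2⟩ := exists_UU mrestr mops (insert z F)
    have hfF := hfin F
    have hpF : IsProbabilityMeasure (PL (leb 1 (WW F))) := (prob (Eu d) (leb 1 (WW F))).1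
    have hGm : Measurable fun ω : Om d => g (UU (insert z F) ω) := by
      have : (fun ω : Om d => g (UU (insert z F) ω)) = (fun η : Cfg (Eu d) => g (pt η)) ∘ mI := by
        funext ω
        rw [Function.comp_apply, hmI2]
      rw [this]
      exact hg.comp hmI1
    have hup : Measurable fun q : Cfg (Eu d) × Om d => Function.update q.2 z q.1 := by
      refine measurable_pi_iff.2 fun i => ?_
      by_cases h : i = z
      · subst h
        simp only [Function.update_self]
        exact measurable_fst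
      · simp only [Function.update_of_ne h]
        exact (measurable_pi_apply i).comp measurable_snd
    -- step 1
    have s1 : ∫⁻ ω, g (UU (insert z F) ω)
          ∂(Measure.infinitePi fun _ : Fin d → ℤ => PL (leb 1 (Q0 d))) =
        ∫⁻ η, ∫⁻ ω, g (one z η ∪ UU F ω)
          ∂(Measure.infinitePi fun _ : Fin d → ℤ => PL (leb 1 (Q0 d))) ∂PL (leb 1 (Q0 d)) := by
      conv_lhs => rw [← map_update (PL (leb 1 (Q0 d))) z]
      rw [lintegral_map hGm hup, lintegral_prod (fun q : Cfg (Eu d) × Om d =>
        g (UU (insert z F) (Function.update q.2 z q.1))) (hGm.comp hup).aemeasurable]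
      refine lintegral_congr fun η => lintegral_congr fun ω => ?_
      rw [UU_insert F z hz]
    -- step 2
    have s2 : ∀ η : Cfg (Eu d), ∫⁻ ω, g (one z η ∪ UU F ω)
          ∂(Measure.infinitePi fun _ : Fin d → ℤ => PL (leb 1 (Q0 d))) =
        ∫⁻ ω', g (one z η ∪ pt ω') ∂PL (leb 1 (WW F)) := by
      intro η
      have hcm : CM fun P => g (one z η ∪ P) := by
        have : (fun ω' : Cfg (Eu d) => g (one z η ∪ pt ω')) =
            (fun η : Cfg (Eu d) => g (pt η)) ∘ fun ω' => a (c η, ω') := by
          funext ω'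
          rw [Function.comp_apply, ha2, hc2]
        change Measurable (fun ω' : Cfg (Eu d) => g (one z η ∪ pt ω'))
        rw [this]
        exact hg.comp (ha1.comp (measurable_const.prodMk measurable_id))
      exact ih _ hcm
    set h : Set (Eu d) → ℝ≥0∞ := fun P => ∫⁻ ω', g (P ∪ pt ω') ∂PL (leb 1 (WW F)) with hh
    have hjoint : Measurable fun q : Cfg (Eu d) × Cfg (Eu d) => g (pt q.1 ∪ pt q.2) := by
      have : (fun q : Cfg (Eu d) × Cfg (Eu d) => g (pt q.1 ∪ pt q.2)) =
          (fun η : Cfg (Eu d) => g (pt η)) ∘ a := by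
        funext q
        rw [Function.comp_apply, ← ha2]
      rw [this]
      exact hg.comp ha1
    have hhm : CM h := hjoint.lintegral_prod_right'
    have hh' : CM fun P => h ((fun y => y + ivec z) '' P) := by
      obtain ⟨m, h3, h4⟩ := mops.2.2 (Eu d) (Eu d) (fun y => y + ivec z)
        (measurable_id.add_const _)
      have : (fun ω : Cfg (Eu d) => h ((fun y => y + ivec z) '' pt ω)) =
          (fun η : Cfg (Eu d) => h (pt η)) ∘ m := by
        funext ω
        rw [Function.comp_apply, h4]
      change Measurable (fun ω : Cfg (Eu d) => h ((fun y => y + ivec z) '' pt ω))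
      rw [this]
      exact hhm.comp h3
    have hQfin : IsFiniteMeasure (leb 1 (Q0 d)) := by
      have := hfin {0}
      have e : WW ({0} : Finset (Fin d → ℤ)) = Q0 d := by ext x; simp [WW, Q0]
      rwa [e] at this
    have s3 : ∫⁻ η, h (one z η) ∂PL (leb 1 (Q0 d)) =
        ∫⁻ η, h (pt η) ∂PL (leb 1 {x : Eu d | fl x = z}) := by
      simp only [one_eq]
      rw [(res (Eu d) (leb 1 (Q0 d)) (Q0 d) meas_Q0).1
        (fun P => h ((fun y => y + ivec z) '' P)) hh']
      have e1 : (leb 1 (Q0 d)).restrict (Q0 d) = leb 1 (Q0 d) := by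
        unfold leb
        rw [Measure.restrict_smul, Measure.restrict_restrict meas_Q0, inter_self]
      rw [e1, ← leb_cube z, img (Eu d) (Eu d) (leb 1 (Q0 d)) (fun y => y + ivec z) h
        (measurable_id.add_const _) hhm]
    have hzfin : IsFiniteMeasure (leb 1 {x : Eu d | fl x = z}) := by
      have := hfin {z}
      have e : WW ({z} : Finset (Fin d → ℤ)) = {x : Eu d | fl x = z} := by
        ext x; simp [WW]
      rwa [e] at this
    have s4 : leb 1 (WW (insert z F)) = leb 1 {x : Eu d | fl x = z} + leb 1 (WW F) := by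
      unfold leb
      rw [← smul_add, ← Measure.restrict_union _ (meas_WW F)]
      · congr 2
        ext x
        simp [WW]
      · rw [Set.disjoint_left]
        intro x hx hx'
        have : fl x = z := hx
        apply hz
        rw [← this]
        exact hx'
    rw [s1, s4, super (Eu d) _ _ g hg, ← s3]
    exact lintegral_congr fun η => s2 η

/-- PROC (11.1) -/
theorem proc (prob : ProbStatement) (super : SuperStatement) (img : ImgStatement)
    (res : ResStatement) (mrestr : MRestrStatement) (mops : MOpsStatement) :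
    ProcStatement := by
  classical
  intro d hd
  have hfin : ∀ F : Finset (Fin d → ℤ), IsFiniteMeasure (leb 1 (WW F)) :=
    fun F => finite_leb 1 (bdd_WW F)
  have hQfin : IsFiniteMeasure (leb 1 (Q0 d)) := by
    have := hfin {0}
    have e : WW ({0} : Finset (Fin d → ℤ)) = Q0 d := by ext x; simp [WW, Q0]
    rwa [e] at this
  have hp : IsProbabilityMeasure (PL (leb 1 (Q0 d))) := (prob (Eu d) (leb 1 (Q0 d))).1
  refine ⟨Om d, inferInstance, Measure.infinitePi fun _ : Fin d → ℤ => PL (leb 1 (Q0 d)), SS,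
    { prob := inferInstance
      lf := ?_
      enum := ?_
      law := ?_
      shift := ?_ }⟩
  · intro ω A hA
    have h1 := fin_fl hA
    have h2 : SS ω ∩ A ⊆ ⋃ z ∈ fl '' A, (fun y => y + ivec z) '' pt (ω z) := by
      rintro x ⟨hx, hxA⟩
      simp only [mem_iUnion]
      exact ⟨fl x, mem_image_of_mem fl hxA, x - ivec (fl x), hx, sub_add_cancel _ _⟩
    exact (h1.biUnion fun z _ => (pt_finite (ω z)).image _).subset h2
  · obtain ⟨e, he⟩ := exists_surjective_nat ((Fin d → ℤ) × ℕ)
    have hnth : ∀ i : ℕ, Measurable fun η : Cfg (Eu d) =>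
        if h : i < η.1 then η.2 ⟨i, h⟩ else (0 : Eu d) := by
      intro i
      refine measurable_cfg.2 fun k => ?_
      by_cases h : i < k
      · simp only [h, dif_pos]
        exact (measurable_pi_apply (⟨i, h⟩ : Fin k) :
          Measurable fun x : Fin k → Eu d => x ⟨i, h⟩)
      · simp only [h, dif_neg, not_false_iff]
        exact measurable_const
    have hlen : ∀ i : ℕ, MeasurableSet {η : Cfg (Eu d) | i < η.1} := by
      intro i
      refine measurableSet_cfg.2 fun k => ?_
      by_cases h : i < k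
      · simp [h]
      · simp [h]
    refine ⟨fun n ω => (if h : (e n).2 < (ω (e n).1).1 then (ω (e n).1).2 ⟨(e n).2, h⟩ else 0)
        + ivec (e n).1,
      fun n => {ω | (e n).2 < (ω (e n).1).1 ∧
        (if h : (e n).2 < (ω (e n).1).1 then (ω (e n).1).2 ⟨(e n).2, h⟩ else 0) ∈ Q0 d},
      ?_, ?_, ?_⟩
    · intro n
      exact ((hnth (e n).2).comp (measurable_pi_apply (e n).1)).add_const _
    · intro n
      exact ((hlen (e n).2).preimage (measurable_pi_apply (e n).1)).inter
        (meas_Q0.preimage ((hnth (e n).2).comp (measurable_pi_apply (e n).1)))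
    · intro ω
      ext x
      simp only [SS, mem_setOf_eq]
      constructor
      · rintro ⟨i, hi⟩
        obtain ⟨n, hn⟩ := he (fl x, (i : ℕ))
        have hlt : (i : ℕ) < (ω (fl x)).1 := i.2
        refine ⟨n, ?_, ?_⟩
        · rw [hn]
          refine ⟨hlt, ?_⟩
          rw [dif_pos hlt]
          have h3 := fl_add (x - ivec (fl x)) (fl x)
          rw [sub_add_cancel] at h3
          change fl ((ω (fl x)).2 i) = 0
          rw [hi]
          exact add_eq_right.1 h3.symm
        · rw [hn, dif_pos hlt]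
          change (ω (fl x)).2 i + ivec (fl x) = x
          rw [hi, sub_add_cancel]
      · rintro ⟨n, ⟨h1, h2⟩, h3⟩
        rw [dif_pos h1] at h2 h3
        have h4 : fl x = (e n).1 := by
          rw [← h3, fl_add, show fl ((ω (e n).1).2 ⟨(e n).2, h1⟩) = 0 from h2, zero_add]
        rw [h4, ← h3, add_sub_cancel_right]
        exact ⟨_, rfl⟩
  · intro V hV f hf
    have h1 := fin_fl hV.2
    have hVF : V ⊆ WW h1.toFinset := fun x hx => by
      change fl x ∈ h1.toFinset
      rw [Set.Finite.mem_toFinset]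
      exact mem_image_of_mem fl hx
    obtain ⟨r, hr1, hr2⟩ := exists_restr mrestr V hV.1
    obtain ⟨m, hm1, hm2⟩ := exists_UU mrestr mops h1.toFinset
    have hfV : CM fun P => f (P ∩ V) := by
      have : (fun ω : Cfg (Eu d) => f (pt ω ∩ V)) = (fun η : Cfg (Eu d) => f (pt η)) ∘ r := by
        funext ω
        rw [Function.comp_apply, hr2]
      change Measurable (fun ω : Cfg (Eu d) => f (pt ω ∩ V))
      rw [this]
      exact hf.comp hr1
    have hS : (fun ω : Om d => f (SS ω ∩ V)) = fun ω => f (UU h1.toFinset ω ∩ V) := by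
      funext ω
      rw [SS_inter hVF]
    rw [hS]
    constructor
    · have : (fun ω : Om d => f (UU h1.toFinset ω ∩ V)) =
          (fun η : Cfg (Eu d) => f (pt η ∩ V)) ∘ m := by
        funext ω
        rw [Function.comp_apply, hm2]
      rw [this]
      exact hfV.comp hm1
    · rw [law_UU prob super img res mrestr mops hd hp hfin h1.toFinset _ hfV]
      have := hfin h1.toFinset
      rw [(res (Eu d) (leb 1 (WW h1.toFinset)) V hV.1).1 f hf]
      have e1 : (leb 1 (WW h1.toFinset)).restrict V = leb 1 V := by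
        unfold leb
        rw [Measure.restrict_smul, Measure.restrict_restrict hV.1, inter_eq_left.2 hVF]
      rw [e1]
  · intro z
    have h1 := Measure.infinitePi_map_piCongrLeft
      (fun _ : Fin d → ℤ => PL (leb 1 (Q0 d))) (Equiv.addRight z : (Fin d → ℤ) ≃ (Fin d → ℤ))
    refine ⟨fun ω z' => ω (z' - z), ⟨?_, ?_⟩, ?_⟩
    · exact measurable_pi_iff.2 fun i =>
        (measurable_pi_apply (i - z) : Measurable fun ω : Om d => ω (i - z))
    · have h2 : (fun (ω : Om d) (z' : Fin d → ℤ) => ω (z' - z)) =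
          MeasurableEquiv.piCongrLeft (fun _ : Fin d → ℤ => Cfg (Eu d))
            (Equiv.addRight z : (Fin d → ℤ) ≃ (Fin d → ℤ)) := by
        funext ω z'
        obtain ⟨w, rfl⟩ := (Equiv.addRight z : (Fin d → ℤ) ≃ (Fin d → ℤ)).surjective z'
        rw [MeasurableEquiv.coe_piCongrLeft, Equiv.piCongrLeft_apply_apply]
        change ω (w + z - z) = ω w
        rw [add_sub_cancel_right]
      rw [h2]
      exact h1
    · intro ω
      ext x
      simp only [SS, mem_setOf_eq, mem_image]
      constructor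
      · intro h
        refine ⟨x - ivec z, ?_, sub_add_cancel _ _⟩
        have h3 := fl_add (x - ivec z) z
        rw [sub_add_cancel] at h3
        have h4 : fl (x - ivec z) = fl x - z := by rw [h3, add_sub_cancel_right]
        rw [h4]
        have h5 : x - ivec z - ivec (fl x - z) = x - ivec (fl x) := by
          rw [sub_eq_add_neg (fl x) z, ivec_add, ivec_neg]
          abel
        rw [h5]
        exact h
      · rintro ⟨y, hy, rfl⟩
        rw [fl_add, add_sub_cancel_right, ivec_add]
        have h5 : y + ivec z - (ivec (fl y) + ivec z) = y - ivec (fl y) := by abel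
        rw [h5]
        exact hy

end Pool.Agent.Lib.MP_5349a4_pr.H47.Proc
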