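import Pool.Agent.Lib.MP_5349a4_pr.M.Iface3
import Pool.Agent.Lib.MP_5349a4_pr.M.Base

/-!
# STATZ: lower tail of the number of points connected to green points ((8.1), part (1))
-/

set_option autoImplicit false
set_option linter.all false
open MeasureTheory Set
open scoped ENNReal NNReal

namespace Pool.Agent.Lib.MP_5349a4_pr.H47.StatZ

variable {d : ℕ}

lemma gco_iff (r : ℝ) (hr : 0 ≤ r) (N G : Set (Eu d)) (x : Eu d) :
    gco r N G x ↔ ∃ p ∈ G, Con (ad r) (N ∪ G) x p := by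
  constructor
  · rintro ⟨p, hp, hc⟩
    refine ⟨p, hp, ?_⟩
    have hc' : Relation.ReflTransGen (step (ad r) (N ∪ G)) x p := hc
    rcases Relation.ReflTransGen.cases_tail hc' with h | ⟨b, hb, hbp⟩
    · refine ⟨p, hc, ?_⟩
      unfold ad
      rw [dist_self]
      exact hr
    · exact ⟨b, hb, hbp.1⟩
  · rintro ⟨p, hp, a, ha, hap⟩
    exact ⟨p, hp, Relation.ReflTransGen.tail ha ⟨hap, Or.inr hp⟩⟩

/-- measurability of the event -/
lemma gco_meas (conm : ConMStatement) (mops : MOpsStatement) (msum : MSumStatement) (r : ℝ)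
    (hr : 0 ≤ r) (x : Eu d) :
    MeasurableSet {q : Cfg (Eu d) × Cfg (Eu d) | gco r (pt q.1) (pt q.2) x} := by
  obtain ⟨a, ha1, ha2⟩ := mops.1 (Eu d)
  have h1 : MeasurableSet {q : Cfg (Eu d) × Eu d × Cfg (Eu d) |
      Con (ad r) (pt q.1 ∪ pt q.2.2) x q.2.1} := by
    have h2 := (conm (Eu d) (ad r) (madj_ad r)).1
    have h3 : Measurable fun q : Cfg (Eu d) × Eu d × Cfg (Eu d) => (x, q.2.1, a (q.1, q.2.2)) :=
      measurable_const.prodMk ((measurable_fst.comp measurable_snd).prodMk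
        (ha1.comp (measurable_fst.prodMk (measurable_snd.comp measurable_snd))))
    have h4 := h2.preimage h3
    have h5 : (fun q : Cfg (Eu d) × Eu d × Cfg (Eu d) => (x, q.2.1, a (q.1, q.2.2))) ⁻¹'
        {q : Eu d × Eu d × Cfg (Eu d) | Con (ad r) (pt q.2.2) q.1 q.2.1} =
        {q : Cfg (Eu d) × Eu d × Cfg (Eu d) | Con (ad r) (pt q.1 ∪ pt q.2.2) x q.2.1} := by
      ext q
      simp only [mem_preimage, mem_setOf_eq, ha2]
    rw [h5] at h4
    exact h4
  have h6 := msum.2.1 (Cfg (Eu d)) (Eu d)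
    (fun n p P => Con (ad r) (pt n ∪ P) x p) h1
  have h7 : {q : Cfg (Eu d) × Cfg (Eu d) | gco r (pt q.1) (pt q.2) x} =
      {q : Cfg (Eu d) × Cfg (Eu d) | ∃ p ∈ pt q.2, Con (ad r) (pt q.1 ∪ pt q.2) x p} := by
    ext q
    exact gco_iff r hr _ _ x
  rw [h7]
  exact h6

/-- pointwise inequality behind Chebyshev -/
lemma pw_ineq (a z : ℝ) (ha : 0 ≤ a) (hz : 0 ≤ z) :
    ind (ENNReal.ofReal z < ENNReal.ofReal (a / 2)) * ENNReal.ofReal (a ^ 2 / 4)
      + ENNReal.ofReal (2 * a * z) ≤ ENNReal.ofReal (z ^ 2 + a ^ 2) := by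
  by_cases h : ENNReal.ofReal z < ENNReal.ofReal (a / 2)
  · rw [ind_of h, one_mul, ← ENNReal.ofReal_add (by positivity) (by positivity)]
    apply ENNReal.ofReal_le_ofReal
    have h1 : z < a / 2 := by
      by_contra hcon
      exact absurd h (not_lt.2 (ENNReal.ofReal_le_ofReal (not_lt.1 hcon)))
    nlinarith
  · rw [ind_not h, zero_mul, zero_add]
    apply ENNReal.ofReal_le_ofReal
    nlinarith [sq_nonneg (z - a)]

/-- Chebyshev's inequality in the form we need -/
lemma cheb {Ω : Type} [MeasurableSpace Ω] (μ : Measure Ω) [IsProbabilityMeasure μ]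
    (Z : Ω → ℝ≥0∞) (hZ : Measurable Z) (hZt : ∀ q, Z q ≠ ∞) (a e1 e2 : ℝ) (ha : 0 < a)
    (he1 : 0 ≤ e1) (he2 : 0 ≤ e2)
    (h1 : ENNReal.ofReal e1 ≤ ∫⁻ q, Z q ∂μ) (h2 : ∫⁻ q, Z q * Z q ∂μ ≤ ENNReal.ofReal e2) :
    μ {q | Z q < ENNReal.ofReal (a / 2)} ≤
      ENNReal.ofReal (4 * (e2 + a ^ 2 - 2 * a * e1) / a ^ 2) := by
  have hm : MeasurableSet {q | Z q < ENNReal.ofReal (a / 2)} := measurableSet_lt hZ measurable_const
  have hpt : ∀ q, ind (Z q < ENNReal.ofReal (a / 2)) * ENNReal.ofReal (a ^ 2 / 4)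
      + ENNReal.ofReal (2 * a) * Z q ≤ Z q * Z q + ENNReal.ofReal (a ^ 2) := by
    intro q
    have hz : Z q = ENNReal.ofReal (Z q).toReal := (ENNReal.ofReal_toReal (hZt q)).symm
    have hz0 : 0 ≤ (Z q).toReal := ENNReal.toReal_nonneg
    rw [hz, ← ENNReal.ofReal_mul (by positivity), ← ENNReal.ofReal_mul hz0,
      ← ENNReal.ofReal_add (by positivity) (by positivity), ← pow_two]
    exact pw_ineq a _ ha.le hz0
  have h3 := lintegral_mono (μ := μ) hpt
  rw [lintegral_add_left ((measurable_ind hm).mul_const _), lintegral_mul_const _ (measurable_ind hm),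
    lintegral_ind hm, lintegral_const_mul _ hZ, lintegral_add_right _ measurable_const,
    lintegral_const, measure_univ, mul_one] at h3
  set p : ℝ := (μ {q | Z q < ENNReal.ofReal (a / 2)}).toReal with hp
  have hpE : μ {q | Z q < ENNReal.ofReal (a / 2)} = ENNReal.ofReal p :=
    (ENNReal.ofReal_toReal (measure_ne_top _ _)).symm
  have hp0 : 0 ≤ p := ENNReal.toReal_nonneg
  rw [hpE] at h3 ⊢
  have h4 : ENNReal.ofReal (p * (a ^ 2 / 4) + 2 * a * e1) ≤ ENNReal.ofReal (e2 + a ^ 2) := by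
    calc ENNReal.ofReal (p * (a ^ 2 / 4) + 2 * a * e1)
        = ENNReal.ofReal p * ENNReal.ofReal (a ^ 2 / 4)
          + ENNReal.ofReal (2 * a) * ENNReal.ofReal e1 := by
          rw [ENNReal.ofReal_add (by positivity) (by positivity), ENNReal.ofReal_mul hp0,
            ENNReal.ofReal_mul (by positivity : (0 : ℝ) ≤ 2 * a)]
      _ ≤ ENNReal.ofReal p * ENNReal.ofReal (a ^ 2 / 4)
          + ENNReal.ofReal (2 * a) * ∫⁻ q, Z q ∂μ := by gcongr
      _ ≤ ∫⁻ q, Z q * Z q ∂μ + ENNReal.ofReal (a ^ 2) := h3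
      _ ≤ ENNReal.ofReal e2 + ENNReal.ofReal (a ^ 2) := by gcongr
      _ = ENNReal.ofReal (e2 + a ^ 2) := by
          rw [ENNReal.ofReal_add he2 (by positivity)]
  have h5 : p * (a ^ 2 / 4) + 2 * a * e1 ≤ e2 + a ^ 2 :=
    (ENNReal.ofReal_le_ofReal_iff (by positivity)).1 h4
  apply ENNReal.ofReal_le_ofReal
  rw [le_div_iff₀ (by positivity)]
  nlinarith

/-- STATZ -/
theorem statz (typg : TypGStatement) (typi : TypIStatement) (magp : MagPStatement)
    (mag : MagStatement) (decr : DecRStatement) (sumr : SumRStatement) (scal : ScalStatement)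
    (prob : ProbStatement) (conm : ConMStatement) (mops : MOpsStatement)
    (msum : MSumStatement) : StatZStatement := by
  intro d lam κ A hcrit
  have hκ : 1 ≤ κ := hcrit.hκ
  have hd : 1 ≤ d := by
    have := hcrit.hd
    have h1 : 1 ≤ κ ^ 2 := Nat.one_le_pow _ _ hκ
    omega
  obtain ⟨c, h0, hc0, hh0, hh1, hmag⟩ := mag d lam κ A hcrit
  obtain ⟨C1, hC1, hdec⟩ := decr d lam κ A hcrit
  obtain ⟨C2, hC2, hsum⟩ := sumr d κ hκ hcrit.hd
  refine ⟨12 + 12 * C1 * C2, h0, by positivity, hh0, hh1, ?_⟩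
  intro r h m hr1 hr2 hh hhh hm
  have hr0 : 0 < r := by linarith
  have hhle : h ≤ 1 := hhh.trans hh1
  set M : ℝ≥0∞ := Mag d lam 1 h with hM
  have hMh : (h : ℝ≥0∞) ≤ M := (hmag h hh hhh).2
  have hMs : Mag d (lamr d lam r) r h = M := (scal d lam r hd hr0).2 h hhle
  obtain ⟨mp1, mp2, mp3, mp4, -⟩ := magp d (lamr d lam r) r h hd hr0.le hhle
  rw [hMs] at mp2 mp4
  have hMtop : M ≠ ∞ := (mp2.trans_lt ENNReal.one_lt_top).ne
  set Mr : ℝ := M.toReal with hMr
  have hMe : M = ENNReal.ofReal Mr := (ENNReal.ofReal_toReal hMtop).symm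
  have hMpos : 0 < M := lt_of_lt_of_le (by exact_mod_cast hh) hMh
  have hMr0 : 0 < Mr := ENNReal.toReal_pos hMpos.ne' hMtop
  have hMr1 : Mr ≤ 1 := by
    have := ENNReal.toReal_mono ENNReal.one_ne_top mp2
    simpa using this
  have hm0 : (1 : ℝ) ≤ m := by exact_mod_cast hm
  -- the choice of `L0`
  have hlt : ENNReal.ofReal ((1 - 1 / m) * Mr) < M := by
    rw [hMe]
    apply (ENNReal.ofReal_lt_ofReal_iff hMr0).2
    have : 0 < 1 / (m : ℝ) := by positivity
    nlinarith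
  obtain ⟨L1, hL1⟩ : ∃ L1 : ℕ, ENNReal.ofReal ((1 - 1 / m) * Mr) < magL d (lamr d lam r) r h L1 := by
    rw [← hMs, Mag] at hlt
    exact lt_iSup_iff.1 hlt
  refine ⟨L1 + 2 * m, ?_⟩
  intro L R Δ hL hRc hRb hΔ hDens
  set lr := lamr d lam r with hlr
  set U : Set (Eu d) := bal (0 : Eu d) L with hU
  have hUd : Dom U := dom_bal 0 L
  set ρn := leb (lr * (1 - h)) U with hρn
  set ρg := leb (lr * h) U with hρg
  have i1 : IsFiniteMeasure ρn := finite_leb _ hUd.2
  have i2 : IsFiniteMeasure ρg := finite_leb _ hUd.2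
  have i3 : NullSingletonClass ρn := noAtoms_leb hd _ _
  have i4 : NullSingletonClass ρg := noAtoms_leb hd _ _
  have i5 : IsProbabilityMeasure (PL ρn) := (prob (Eu d) ρn).1
  have i6 : IsProbabilityMeasure (PL ρg) := (prob (Eu d) ρg).1
  set μ := (PL ρn).prod (PL ρg) with hμ
  have hsumρ : ρn + ρg = leb lr U := by
    rw [hρn, hρg, ← leb_add, ← mul_add, tsub_add_cancel_of_le hhle, mul_one]
  have hev : ∀ x : Eu d, MeasurableSet {q : Cfg (Eu d) × Cfg (Eu d) |
      gco r (pt q.1) (pt q.2) x} := fun x => gco_meas conm mops msum r hr0.le x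
  set Z : Cfg (Eu d) × Cfg (Eu d) → ℝ≥0∞ := fun q => num R (gco r (pt q.1) (pt q.2)) with hZ
  have hZm : Measurable Z := by
    rw [hZ]
    unfold num
    exact Finset.measurable_sum R fun x _ => measurable_ind (hev x)
  have hZt : ∀ q, Z q ≠ ∞ := by
    intro q
    rw [hZ]
    unfold num
    exact (ENNReal.sum_lt_top.2 fun x _ => (ind_ne_top _).lt_top).ne
  -- first moment
  have hG : ∀ x, ∫⁻ q, ind (gco r (pt q.1) (pt q.2) x) ∂μ = gp r ρn ρg x := fun x =>
    lintegral_ind (hev x)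
  have hE1 : ENNReal.ofReal ((m - 1) * Mr) ≤ ∫⁻ q, Z q ∂μ := by
    have e1 : ∫⁻ q, Z q ∂μ = ∑ x ∈ R, gp r ρn ρg x := by
      rw [hZ]
      unfold num
      rw [lintegral_finset_sum R fun x _ => measurable_ind (hev x)]
      exact Finset.sum_congr rfl fun x _ => hG x
    rw [e1]
    calc ENNReal.ofReal ((m - 1) * Mr)
        = ∑ x ∈ R, ENNReal.ofReal ((1 - 1 / m) * Mr) := by
          rw [Finset.sum_const, hRc, nsmul_eq_mul, ← ENNReal.ofReal_natCast,
            ← ENNReal.ofReal_mul (by positivity)]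
          congr 1
          field_simp
      _ ≤ ∑ x ∈ R, gp r ρn ρg x := by
          refine Finset.sum_le_sum fun x hx => ?_
          refine hL1.le.trans (mp3 U x L1 hUd ?_)
          have hx2 : dist x 0 ≤ 2 * m := hRb hx
          intro y hy
          have hy2 : dist y x ≤ L1 := hy
          change dist y 0 ≤ L
          calc dist y 0 ≤ dist y x + dist x 0 := dist_triangle _ _ _
            _ ≤ L1 + 2 * m := add_le_add hy2 hx2
            _ ≤ L := hL
  -- pair probabilities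
  set K : Eu d → Eu d → ℝ≥0∞ := fun x x' =>
    lr * ∫⁻ b in U, tp (ad r) (leb lr U) x b * tp (ad r) (leb lr U) b x' with hK
  have hpair : ∀ x x' : Eu d,
      ∫⁻ q, ind (gco r (pt q.1) (pt q.2) x) * ind (gco r (pt q.1) (pt q.2) x') ∂μ ≤
        M * M + M * (tp (ad r) (leb lr U) x x' + 2 * K x x') := by
    intro x x'
    have e1 : ∫⁻ q, ind (gco r (pt q.1) (pt q.2) x) * ind (gco r (pt q.1) (pt q.2) x') ∂μ =
        μ {q | gco r (pt q.1) (pt q.2) x ∧ gco r (pt q.1) (pt q.2) x'} := by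
      have hm2 : MeasurableSet {q : Cfg (Eu d) × Cfg (Eu d) | gco r (pt q.1) (pt q.2) x ∧
          gco r (pt q.1) (pt q.2) x'} := (hev x).inter (hev x')
      rw [← lintegral_ind hm2]
      exact lintegral_congr fun q => (ind_and _ _).symm
    rw [e1]
    have t1 := typi d ρn ρg r x x'
    have t2 := typg d ρn ρg r x x'
    rw [hsumρ] at t2
    have b1 : gp r ρn ρg x ≤ M := mp4 U x hUd
    have b2 : gp r ρn ρg x' ≤ M := mp4 U x' hUd
    have b3 : ∫⁻ b, tp (ad r) (leb lr U) x b * (tp (ad r) (leb lr U) b x' * gp r ρn ρg b) ∂ρn ≤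
        M * K x x' := by
      calc ∫⁻ b, tp (ad r) (leb lr U) x b * (tp (ad r) (leb lr U) b x' * gp r ρn ρg b) ∂ρn
          ≤ ∫⁻ b, M * (tp (ad r) (leb lr U) x b * tp (ad r) (leb lr U) b x') ∂ρn := by
            refine lintegral_mono fun b => ?_
            have b4 : gp r ρn ρg b ≤ M := mp4 U b hUd
            calc tp (ad r) (leb lr U) x b * (tp (ad r) (leb lr U) b x' * gp r ρn ρg b)
                = gp r ρn ρg b * (tp (ad r) (leb lr U) x b * tp (ad r) (leb lr U) b x') := by ring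
              _ ≤ _ := by gcongr
        _ = M * ∫⁻ b, tp (ad r) (leb lr U) x b * tp (ad r) (leb lr U) b x' ∂ρn := by
            rw [lintegral_const_mul' _ _ hMtop]
        _ ≤ M * K x x' := by
            gcongr
            rw [hρn, lintegral_leb, hK]
            have hcoef : ((lr * (1 - h) : ℝ≥0) : ℝ≥0∞) ≤ (lr : ℝ≥0∞) := by
              refine ENNReal.coe_le_coe.2 ?_
              calc lr * (1 - h) ≤ lr * 1 := by gcongr; exact tsub_le_self
                _ = lr := mul_one _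
            exact mul_le_mul_left hcoef _
    have b5 : ∫⁻ b, tp (ad r) (leb lr U) x b * tp (ad r) (leb lr U) b x' ∂ρg ≤ M * K x x' := by
      rw [hρg, lintegral_leb, hK]
      calc ((lr * h : ℝ≥0) : ℝ≥0∞) *
            ∫⁻ b in U, tp (ad r) (leb lr U) x b * tp (ad r) (leb lr U) b x'
          = h * (lr * ∫⁻ b in U, tp (ad r) (leb lr U) x b * tp (ad r) (leb lr U) b x') := by
            push_cast
            ring
        _ ≤ _ := by gcongr
    calc μ {q | gco r (pt q.1) (pt q.2) x ∧ gco r (pt q.1) (pt q.2) x'}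
        ≤ gp r ρn ρg x * gp r ρn ρg x' + μ
          {q | Con (ad r) (pt q.1 ∪ pt q.2) x x' ∧ gco r (pt q.1) (pt q.2) x} := t1
      _ ≤ M * M + (tp (ad r) (leb lr U) x x' * M + M * K x x' + M * K x x') := by
          gcongr
          exact t2.trans (by gcongr)
      _ = _ := by ring
  set T : ℝ := Δ * (m : ℝ) ^ (1 / (400 * (κ : ℝ))) with hT
  have hT1 : 1 ≤ T := by
    have h1 : 1 ≤ (m : ℝ) ^ (1 / (400 * (κ : ℝ))) := Real.one_le_rpow hm0 (by positivity)
    nlinarith
  have hRne : R.Nonempty := Finset.card_pos.1 (by omega)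
  have hcol : ∀ x' : Eu d, ∑ x ∈ R, (tp (ad r) (leb lr U) x x' + 2 * K x x') ≤
      ENNReal.ofReal (3 * C1 * C2 * T) := by
    intro x'
    have hd1 := fun x => hdec r U x x' hr1 hr2 hUd
    have s1 := hsum κ R Δ x' (Or.inl rfl) hRne hΔ hDens
    have s2 := hsum (2 * κ) R Δ x' (Or.inr rfl) hRne hΔ hDens
    rw [hRc] at s1 s2
    have hnn : ∀ (a : ℕ) (x : Eu d), 0 ≤ C1 / (max 1 (dist x x')) ^ (d - a) := by
      intro a x
      have : (0 : ℝ) < max 1 (dist x x') := lt_of_lt_of_le one_pos (le_max_left _ _)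
      positivity
    have hq : ∀ a : ℕ, ∑ x ∈ R, ENNReal.ofReal (C1 / (max 1 (dist x x')) ^ (d - a)) =
        ENNReal.ofReal (C1 * ∑ x ∈ R, 1 / (max 1 (dist x x')) ^ (d - a)) := by
      intro a
      rw [← ENNReal.ofReal_sum_of_nonneg (fun x _ => hnn a x), Finset.mul_sum]
      congr 1
      refine Finset.sum_congr rfl fun x _ => ?_
      rw [mul_one_div]
    calc ∑ x ∈ R, (tp (ad r) (leb lr U) x x' + 2 * K x x')
        ≤ ∑ x ∈ R, (ENNReal.ofReal (C1 / (max 1 (dist x x')) ^ (d - κ)) +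
            2 * ENNReal.ofReal (C1 / (max 1 (dist x x')) ^ (d - 2 * κ))) := by
          refine Finset.sum_le_sum fun x _ => ?_
          exact add_le_add (hd1 x).1 (mul_le_mul_right (hd1 x).2 2)
      _ = ENNReal.ofReal (C1 * ∑ x ∈ R, 1 / (max 1 (dist x x')) ^ (d - κ)) +
            2 * ENNReal.ofReal (C1 * ∑ x ∈ R, 1 / (max 1 (dist x x')) ^ (d - 2 * κ)) := by
          rw [Finset.sum_add_distrib, ← Finset.mul_sum, hq, hq]
      _ ≤ ENNReal.ofReal (C1 * (C2 * T)) + 2 * ENNReal.ofReal (C1 * (C2 * T)) := by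
          have s1' : ∑ x ∈ R, 1 / (max 1 (dist x x')) ^ (d - κ) ≤ C2 * T := by
            rw [hT, ← mul_assoc]; exact s1
          have s2' : ∑ x ∈ R, 1 / (max 1 (dist x x')) ^ (d - 2 * κ) ≤ C2 * T := by
            rw [hT, ← mul_assoc]; exact s2
          gcongr
      _ = ENNReal.ofReal (3 * C1 * C2 * T) := by
          have : (2 : ℝ≥0∞) = ENNReal.ofReal 2 := by simp
          rw [this, ← ENNReal.ofReal_mul (by norm_num), ← ENNReal.ofReal_add (by positivity)
            (by positivity)]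
          congr 1
          ring
  -- second moment
  have hE2 : ∫⁻ q, Z q * Z q ∂μ ≤
      ENNReal.ofReal (m * Mr + m ^ 2 * Mr ^ 2 + m * Mr * (3 * C1 * C2 * T)) := by
    have e1 : ∫⁻ q, Z q * Z q ∂μ = ∑ x' ∈ R, ∑ x ∈ R,
        ∫⁻ q, ind (gco r (pt q.1) (pt q.2) x) * ind (gco r (pt q.1) (pt q.2) x') ∂μ := by
      have e2 : ∀ q, Z q * Z q = ∑ x' ∈ R, ∑ x ∈ R,
          ind (gco r (pt q.1) (pt q.2) x) * ind (gco r (pt q.1) (pt q.2) x') := by
        intro q
        rw [hZ]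
        unfold num
        rw [Finset.sum_mul_sum, Finset.sum_comm]
      simp only [e2]
      rw [lintegral_finset_sum]
      · refine Finset.sum_congr rfl fun x' _ => ?_
        rw [lintegral_finset_sum]
        exact fun x _ => (measurable_ind (hev x)).mul (measurable_ind (hev x'))
      · intro x' _
        exact Finset.measurable_sum R fun x _ =>
          (measurable_ind (hev x)).mul (measurable_ind (hev x'))
    rw [e1]
    calc ∑ x' ∈ R, ∑ x ∈ R,
        ∫⁻ q, ind (gco r (pt q.1) (pt q.2) x) * ind (gco r (pt q.1) (pt q.2) x') ∂μ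
        ≤ ∑ x' ∈ R, ∑ x ∈ R, (M * M + M * (tp (ad r) (leb lr U) x x' + 2 * K x x')) :=
          Finset.sum_le_sum fun x' _ => Finset.sum_le_sum fun x _ => hpair x x'
      _ = ∑ x' ∈ R, (m * (M * M) + M * ∑ x ∈ R, (tp (ad r) (leb lr U) x x' + 2 * K x x')) := by
          refine Finset.sum_congr rfl fun x' _ => ?_
          rw [Finset.sum_add_distrib, Finset.sum_const, hRc, nsmul_eq_mul, Finset.mul_sum]
      _ ≤ ∑ x' ∈ R, (m * (M * M) + M * ENNReal.ofReal (3 * C1 * C2 * T)) := by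
          refine Finset.sum_le_sum fun x' _ => ?_
          gcongr
          exact hcol x'
      _ = ENNReal.ofReal (m * (m * (Mr * Mr) + Mr * (3 * C1 * C2 * T))) := by
          rw [Finset.sum_const, hRc, nsmul_eq_mul, hMe, ← ENNReal.ofReal_natCast,
            ← ENNReal.ofReal_mul hMr0.le, ← ENNReal.ofReal_mul (by positivity),
            ← ENNReal.ofReal_mul hMr0.le, ← ENNReal.ofReal_add (by positivity) (by positivity),
            ← ENNReal.ofReal_mul (by positivity)]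
      _ ≤ _ := by
          apply ENNReal.ofReal_le_ofReal
          have : 0 ≤ m * Mr := by positivity
          nlinarith
  have ha : 0 < m * Mr := by positivity
  have hfin := cheb μ Z hZm hZt (m * Mr) ((m - 1) * Mr)
    (m * Mr + m ^ 2 * Mr ^ 2 + m * Mr * (3 * C1 * C2 * T)) ha
    (mul_nonneg (by linarith) hMr0.le) (by positivity) hE1 hE2
  have hset : {q : Cfg (Eu d) × Cfg (Eu d) | num R (gco r (pt q.1) (pt q.2)) <
      ENNReal.ofReal (m / 2) * M} = {q | Z q < ENNReal.ofReal (m * Mr / 2)} := by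
    have : ENNReal.ofReal (m / 2) * M = ENNReal.ofReal (m * Mr / 2) := by
      rw [hMe, ← ENNReal.ofReal_mul (by positivity)]
      congr 1
      ring
    rw [this]
  rw [hset]
  refine hfin.trans (ENNReal.ofReal_le_ofReal ?_)
  have hCC : 0 ≤ C1 * C2 := by positivity
  rw [mul_div_assoc', div_le_div_iff₀ (by positivity) ha]
  have key : 4 * (m * Mr + m ^ 2 * Mr ^ 2 + m * Mr * (3 * C1 * C2 * T) + (m * Mr) ^ 2 -
      2 * (m * Mr) * ((m - 1) * Mr)) ≤ (12 + 12 * C1 * C2) * T * (m * Mr) := by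
    have k1 : m * Mr ≤ m * Mr * T := by nlinarith
    have k2 : m * Mr * Mr ≤ m * Mr * T := by
      apply mul_le_mul_of_nonneg_left _ ha.le
      linarith
    nlinarith
  calc 4 * (m * Mr + m ^ 2 * Mr ^ 2 + m * Mr * (3 * C1 * C2 * T) + (m * Mr) ^ 2 -
      2 * (m * Mr) * ((m - 1) * Mr)) * (m * Mr)
      ≤ ((12 + 12 * C1 * C2) * T * (m * Mr)) * (m * Mr) := mul_le_mul_of_nonneg_right key ha.le
    _ = (12 + 12 * C1 * C2) * T * (m * Mr) ^ 2 := by ring

end Pool.Agent.Lib.MP_5349a4_pr.H47.StatZ
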