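import Pool.Agent.Lib.MP_5349a4_pr.M.Iface1
import Pool.Agent.Lib.MP_5349a4_pr.M.Base

/-!
# SUPER (P2): superposition of finite Poisson processes
-/

set_option autoImplicit false
set_option linter.all false
open MeasureTheory Set
open scoped ENNReal NNReal

namespace Pool.Agent.Lib.MP_5349a4_pr.H47

variable {E : Type} [MeasurableSpace E]

/-! ### Tuples -/

lemma range_append {m n : ℕ} (x : Fin m → E) (y : Fin n → E) :
    range (Fin.append x y) = range x ∪ range y := by
  ext e
  constructor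
  · rintro ⟨i, rfl⟩
    refine Fin.addCases (fun i => ?_) (fun i => ?_) i
    · left
      exact ⟨i, (Fin.append_left x y i).symm⟩
    · right
      exact ⟨i, (Fin.append_right x y i).symm⟩
  · rintro (⟨i, rfl⟩ | ⟨i, rfl⟩)
    · exact ⟨Fin.castAdd n i, Fin.append_left x y i⟩
    · exact ⟨Fin.natAdd m i, Fin.append_right x y i⟩

lemma measurable_append (m n : ℕ) :
    Measurable fun p : (Fin m → E) × (Fin n → E) => Fin.append p.1 p.2 := by
  refine measurable_pi_iff.2 fun i => ?_
  refine Fin.addCases (fun i => ?_) (fun i => ?_) i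
  · simp only [Fin.append_left]
    exact (measurable_pi_apply i).comp measurable_fst
  · simp only [Fin.append_right]
    exact (measurable_pi_apply i).comp measurable_snd

lemma measurable_cons (k : ℕ) :
    Measurable fun p : E × (Fin k → E) => (Fin.cons p.1 p.2 : Fin (k + 1) → E) := by
  refine measurable_pi_iff.2 fun i => ?_
  refine Fin.cases ?_ (fun i => ?_) i
  · simp only [Fin.cons_zero]
    exact measurable_fst
  · simp only [Fin.cons_succ]
    exact (measurable_pi_apply i).comp measurable_snd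

lemma cm_k {f : Set E → ℝ≥0∞} (hf : CM f) (k : ℕ) :
    Measurable fun x : Fin k → E => f (range x) := measurable_cfg.1 hf k

lemma cm_app {f : Set E → ℝ≥0∞} (hf : CM f) (i j : ℕ) :
    Measurable fun p : (Fin i → E) × (Fin j → E) => f (range p.1 ∪ range p.2) := by
  have h := (cm_k hf (i + j)).comp (measurable_append i j)
  simp only [Function.comp_def, range_append] at h
  exact h

lemma cm_ins {f : Set E → ℝ≥0∞} (hf : CM f) (i j : ℕ) :
    Measurable fun p : E × (Fin i → E) × (Fin j → E) =>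
      f (insert p.1 (range p.2.1 ∪ range p.2.2)) := by
  have h1 : Measurable fun p : E × (Fin i → E) × (Fin j → E) =>
      (Fin.cons p.1 (Fin.append p.2.1 p.2.2) : Fin (i + j + 1) → E) :=
    (measurable_cons (i + j)).comp (measurable_fst.prodMk
      ((measurable_append i j).comp measurable_snd))
  have h := (cm_k hf (i + j + 1)).comp h1
  simp only [Function.comp_def, Fin.range_cons, range_append] at h
  exact h

lemma cm_insert {f : Set E → ℝ≥0∞} (hf : CM f) (e : E) : CM fun S => f (insert e S) := by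
  refine measurable_cfg.2 fun k => ?_
  have h1 : Measurable fun x : Fin k → E => (Fin.cons e x : Fin (k + 1) → E) :=
    (measurable_cons k).comp (measurable_const.prodMk measurable_id)
  have h := (cm_k hf (k + 1)).comp h1
  simp only [Function.comp_def, Fin.range_cons] at h
  exact h

/-- one variable of a power measure -/
lemma lintegral_cons (μ : Measure E) [SigmaFinite μ] (k : ℕ) (g : (Fin (k + 1) → E) → ℝ≥0∞)
    (hg : Measurable g) :
    ∫⁻ x, g x ∂(Measure.pi fun _ : Fin (k + 1) => μ) =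
      ∫⁻ e, ∫⁻ x, g (Fin.cons e x) ∂(Measure.pi fun _ : Fin k => μ) ∂μ := by
  have h := (measurePreserving_piFinSuccAbove (fun _ : Fin (k + 1) => μ) 0).symm
  rw [← h.lintegral_comp hg, lintegral_prod
    (fun z => g ((MeasurableEquiv.piFinSuccAbove (fun _ : Fin (k + 1) => E) 0).symm z))
    (hg.comp h.measurable).aemeasurable]
  refine lintegral_congr fun e => lintegral_congr fun x => ?_
  exact congrArg g (Fin.insertNth_zero' e x)

/-! ### The binomial formula -/

/-- mixed integrals -/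
noncomputable def J (ρ σ : Measure E) (f : Set E → ℝ≥0∞) (i j : ℕ) : ℝ≥0∞ :=
  ∫⁻ x, ∫⁻ y, f (range x ∪ range y) ∂(Measure.pi fun _ : Fin j => σ)
    ∂(Measure.pi fun _ : Fin i => ρ)

variable (ρ σ : Measure E) [IsFiniteMeasure ρ] [IsFiniteMeasure σ]

lemma J_meas {f : Set E → ℝ≥0∞} (hf : CM f) (i j : ℕ) :
    Measurable fun e => J ρ σ (fun S => f (insert e S)) i j := by
  unfold J
  have h := cm_ins hf i j
  have h1 : Measurable fun q : (E × (Fin i → E)) × (Fin j → E) =>
      f (insert q.1.1 (range q.1.2 ∪ range q.2)) :=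
    h.comp ((measurable_fst.comp measurable_fst).prodMk
      ((measurable_snd.comp measurable_fst).prodMk measurable_snd))
  have h2 : Measurable fun q : E × (Fin i → E) =>
      ∫⁻ y, f (insert q.1 (range q.2 ∪ range y)) ∂(Measure.pi fun _ : Fin j => σ) :=
    h1.lintegral_prod_right'
  exact h2.lintegral_prod_right'

lemma J_fst {f : Set E → ℝ≥0∞} (hf : CM f) (i j : ℕ) :
    ∫⁻ e, J ρ σ (fun S => f (insert e S)) i j ∂ρ = J ρ σ f (i + 1) j := by
  unfold J
  rw [lintegral_cons ρ i _ ((cm_app hf (i + 1) j).lintegral_prod_right')]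
  refine lintegral_congr fun e => lintegral_congr fun x => lintegral_congr fun y => ?_
  rw [Fin.range_cons, Set.insert_union]

lemma J_snd {f : Set E → ℝ≥0∞} (hf : CM f) (i j : ℕ) :
    ∫⁻ e, J ρ σ (fun S => f (insert e S)) i j ∂σ = J ρ σ f i (j + 1) := by
  unfold J
  have h1 : Measurable fun q : (E × (Fin i → E)) × (Fin j → E) =>
      f (insert q.1.1 (range q.1.2 ∪ range q.2)) :=
    (cm_ins hf i j).comp ((measurable_fst.comp measurable_fst).prodMk
      ((measurable_snd.comp measurable_fst).prodMk measurable_snd))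
  have h2 : Measurable fun q : E × (Fin i → E) =>
      ∫⁻ y, f (insert q.1 (range q.2 ∪ range y)) ∂(Measure.pi fun _ : Fin j => σ) :=
    h1.lintegral_prod_right'
  rw [lintegral_lintegral_swap h2.aemeasurable]
  refine lintegral_congr fun x => ?_
  have h3 : Measurable fun y : Fin (j + 1) → E => f (range x ∪ range y) :=
    (cm_app hf i (j + 1)).comp (measurable_const.prodMk measurable_id)
  rw [lintegral_cons σ j _ h3]
  refine lintegral_congr fun e => lintegral_congr fun y => ?_
  rw [Fin.range_cons, Set.union_insert]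

lemma binom (k : ℕ) : ∀ f : Set E → ℝ≥0∞, CM f →
    ∫⁻ x, f (range x) ∂(Measure.pi fun _ : Fin k => ρ + σ) =
      ∑ ij ∈ Finset.HasAntidiagonal.antidiagonal k, (k.choose ij.1 : ℝ≥0∞) * J ρ σ f ij.1 ij.2 := by
  induction k with
  | zero =>
    intro f hf
    simp only [Finset.Nat.antidiagonal_zero, Finset.sum_singleton, Nat.choose_self, Nat.cast_one,
      one_mul]
    unfold J
    have h1 : ∀ (μ : Measure E) [SigmaFinite μ] (g : (Fin 0 → E) → ℝ≥0∞),
        ∫⁻ x, g x ∂(Measure.pi fun _ : Fin 0 => μ) = g (fun i => i.elim0) := by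
      intro μ _ g
      have h2 : (Measure.pi fun _ : Fin 0 => μ) = Measure.dirac (fun i => i.elim0) := by
        rw [Measure.pi_of_empty]
        congr 1
      rw [h2]
      have h3 : g = fun _ => g (fun i => i.elim0) := by
        funext x
        congr 1
        funext i
        exact i.elim0
      rw [h3, lintegral_const]
      simp
    rw [h1, h1, h1]
    simp
  | succ k ih =>
    intro f hf
    rw [lintegral_cons (ρ + σ) k _ (cm_k hf (k + 1))]
    have h1 : ∀ e, ∫⁻ x, f (range (Fin.cons e x : Fin (k + 1) → E))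
        ∂(Measure.pi fun _ : Fin k => ρ + σ) =
        ∑ ij ∈ Finset.HasAntidiagonal.antidiagonal k, (k.choose ij.1 : ℝ≥0∞) *
          J ρ σ (fun S => f (insert e S)) ij.1 ij.2 := by
      intro e
      rw [← ih _ (cm_insert hf e)]
      refine lintegral_congr fun x => ?_
      rw [Fin.range_cons]
    simp only [h1]
    rw [lintegral_add_measure]
    have h2 : ∀ μ : Measure E, ∫⁻ e, ∑ ij ∈ Finset.HasAntidiagonal.antidiagonal k, (k.choose ij.1 : ℝ≥0∞) *
          J ρ σ (fun S => f (insert e S)) ij.1 ij.2 ∂μ =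
        ∑ ij ∈ Finset.HasAntidiagonal.antidiagonal k, (k.choose ij.1 : ℝ≥0∞) *
          ∫⁻ e, J ρ σ (fun S => f (insert e S)) ij.1 ij.2 ∂μ := by
      intro μ
      rw [lintegral_finset_sum]
      · refine Finset.sum_congr rfl fun ij _ => ?_
        rw [lintegral_const_mul _ (J_meas ρ σ hf ij.1 ij.2)]
      · intro ij _
        exact (J_meas ρ σ hf ij.1 ij.2).const_mul _
    rw [h2 ρ, h2 σ, Finset.sum_antidiagonal_choose_succ_mul, add_comm]
    congr 1
    · refine Finset.sum_congr rfl fun ij _ => ?_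
      rw [J_snd ρ σ hf]
    · refine Finset.sum_congr rfl fun ij hij => ?_
      rw [J_fst ρ σ hf, ← Nat.choose_symm_of_eq_add (Finset.HasAntidiagonal.mem_antidiagonal.1 hij).symm]

/-! ### The Poisson law -/

/-- the weights -/
noncomputable def pw (ρ : Measure E) (k : ℕ) : ℝ≥0∞ :=
  ENNReal.ofReal (Real.exp (-(ρ univ).toReal)) / (k.factorial : ℝ≥0∞)

lemma lintegral_PL (ρ : Measure E) (g : Cfg E → ℝ≥0∞) (hg : Measurable g) :
    ∫⁻ ω, g ω ∂PL ρ = ∑' k, pw ρ k * ∫⁻ x, g ⟨k, x⟩ ∂(Measure.pi fun _ : Fin k => ρ) := by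
  unfold PL
  rw [lintegral_sum_measure]
  refine tsum_congr fun k => ?_
  rw [lintegral_smul_measure, lintegral_map hg (measurable_mk k), smul_eq_mul]
  rfl

lemma pw_add (i j : ℕ) :
    pw (ρ + σ) (i + j) * ((i + j).choose i : ℝ≥0∞) = pw ρ i * pw σ j := by
  unfold pw
  have h1 : ENNReal.ofReal (Real.exp (-((ρ + σ) univ).toReal)) =
      ENNReal.ofReal (Real.exp (-(ρ univ).toReal)) *
        ENNReal.ofReal (Real.exp (-(σ univ).toReal)) := by
    rw [← ENNReal.ofReal_mul (Real.exp_pos _).le, ← Real.exp_add, Measure.add_apply,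
      ENNReal.toReal_add (measure_ne_top _ _) (measure_ne_top _ _)]
    congr 2
    ring
  rw [h1]
  have hc : ((i + j).choose i : ℝ≥0∞) * ((i.factorial : ℝ≥0∞) * (j.factorial : ℝ≥0∞)) =
      ((i + j).factorial : ℝ≥0∞) := by
    rw [← Nat.cast_mul, ← Nat.cast_mul, ← mul_assoc]
    congr 1
    have := Nat.choose_mul_factorial_mul_factorial (Nat.le_add_right i j)
    rw [Nat.add_sub_cancel_left] at this
    exact this
  have hi : (i.factorial : ℝ≥0∞) ≠ 0 := by exact_mod_cast i.factorial_ne_zero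
  have hj : (j.factorial : ℝ≥0∞) ≠ 0 := by exact_mod_cast j.factorial_ne_zero
  have hij : ((i + j).factorial : ℝ≥0∞) ≠ 0 := by exact_mod_cast (i + j).factorial_ne_zero
  have hit : (i.factorial : ℝ≥0∞) ≠ ∞ := ENNReal.natCast_ne_top _
  have hjt : (j.factorial : ℝ≥0∞) ≠ ∞ := ENNReal.natCast_ne_top _
  have hijt : ((i + j).factorial : ℝ≥0∞) ≠ ∞ := ENNReal.natCast_ne_top _
  have key : ((i + j).factorial : ℝ≥0∞)⁻¹ * ((i + j).choose i : ℝ≥0∞) =
      (i.factorial : ℝ≥0∞)⁻¹ * (j.factorial : ℝ≥0∞)⁻¹ := by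
    have hC : ((i + j).choose i : ℝ≥0∞) = ((i + j).factorial : ℝ≥0∞) *
        ((i.factorial : ℝ≥0∞) * (j.factorial : ℝ≥0∞))⁻¹ := by
      rw [← hc, mul_assoc, ENNReal.mul_inv_cancel (mul_ne_zero hi hj) (ENNReal.mul_ne_top hit hjt),
        mul_one]
    rw [hC, ← mul_assoc, ENNReal.inv_mul_cancel hij hijt, one_mul,
      ENNReal.mul_inv (Or.inl hi) (Or.inl hit)]
  rw [div_eq_mul_inv, div_eq_mul_inv, div_eq_mul_inv]
  calc ENNReal.ofReal (Real.exp (-(ρ univ).toReal)) *
        ENNReal.ofReal (Real.exp (-(σ univ).toReal)) * ((i + j).factorial : ℝ≥0∞)⁻¹ *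
          ((i + j).choose i : ℝ≥0∞)
      = ENNReal.ofReal (Real.exp (-(ρ univ).toReal)) *
        ENNReal.ofReal (Real.exp (-(σ univ).toReal)) * (((i + j).factorial : ℝ≥0∞)⁻¹ *
          ((i + j).choose i : ℝ≥0∞)) := by ring
    _ = _ := by rw [key]; ring

/-- SUPER (P2) -/
theorem super : SuperStatement := by
  intro E _ ρ σ _ _ f hf
  have hin : ∀ ω : Cfg E, ∫⁻ ω', f (pt ω ∪ pt ω') ∂PL σ =
      ∑' j, pw σ j * ∫⁻ y, f (pt ω ∪ range y) ∂(Measure.pi fun _ : Fin j => σ) := by
    intro ω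
    rw [lintegral_PL]
    · rfl
    · refine measurable_cfg.2 fun j => ?_
      exact (cm_app hf ω.1 j).comp (measurable_const.prodMk measurable_id)
  have hm : Measurable fun ω : Cfg E => ∫⁻ ω', f (pt ω ∪ pt ω') ∂PL σ := by
    simp only [hin]
    refine measurable_cfg.2 fun i => ?_
    refine Measurable.ennreal_tsum fun j => ?_
    exact ((cm_app hf i j).lintegral_prod_right').const_mul _
  rw [lintegral_PL _ _ hf, lintegral_PL _ _ hm]
  have h1 : ∀ i, ∫⁻ x, ∫⁻ ω', f (pt (⟨i, x⟩ : Cfg E) ∪ pt ω') ∂PL σ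
      ∂(Measure.pi fun _ : Fin i => ρ) = ∑' j, pw σ j * J ρ σ f i j := by
    intro i
    simp only [hin]
    rw [lintegral_tsum]
    · refine tsum_congr fun j => ?_
      rw [lintegral_const_mul]
      · rfl
      · exact (cm_app hf i j).lintegral_prod_right'
    · intro j
      exact (((cm_app hf i j).lintegral_prod_right').const_mul _).aemeasurable
  simp only [h1]
  have h2 : ∀ k, pw (ρ + σ) k * ∫⁻ x, f (pt (⟨k, x⟩ : Cfg E)) ∂(Measure.pi fun _ : Fin k => ρ + σ) =
      ∑ ij ∈ Finset.HasAntidiagonal.antidiagonal k, pw ρ ij.1 * (pw σ ij.2 * J ρ σ f ij.1 ij.2) := by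
    intro k
    have := binom ρ σ k f hf
    change pw (ρ + σ) k * ∫⁻ x, f (range x) ∂(Measure.pi fun _ : Fin k => ρ + σ) = _
    rw [this, Finset.mul_sum]
    refine Finset.sum_congr rfl fun ij hij => ?_
    have hk := Finset.HasAntidiagonal.mem_antidiagonal.1 hij
    rw [← hk, ← mul_assoc, pw_add, mul_assoc]
  simp only [h2]
  have h3 : ∀ g : ℕ → ℕ → ℝ≥0∞, ∑' k, ∑ ij ∈ Finset.HasAntidiagonal.antidiagonal k, g ij.1 ij.2 =
      ∑' i, ∑' j, g i j := by
    intro g
    have e1 := Finset.HasAntidiagonal.sigmaAntidiagonalEquivProd.tsum_eq (fun p : ℕ × ℕ => g p.1 p.2)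
    rw [ENNReal.tsum_prod] at e1
    rw [← e1, ENNReal.tsum_sigma']
    refine tsum_congr fun k => ?_
    rw [← Finset.tsum_subtype]
    rfl
  rw [h3 (fun i j => pw ρ i * (pw σ j * J ρ σ f i j))]
  refine tsum_congr fun i => ?_
  rw [ENNReal.tsum_mul_left]

end Pool.Agent.Lib.MP_5349a4_pr.H47
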