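import Pool.Agent.Lib.MP_5349a4_pr.M.Iface2
import Pool.Agent.Lib.MP_5349a4_pr.M.Base

/-!
# TAUF: the facts about the Euclidean two-point function
-/

set_option autoImplicit false
set_option linter.all false
open MeasureTheory Set
open scoped ENNReal NNReal

namespace Pool.Agent.Lib.MP_5349a4_pr.H47

variable {d : ℕ}

/-- isometries preserve volume -/
lemma iso_mp (e : Eu d ≃ᵢ Eu d) : MeasurePreserving e (volume : Measure (Eu d)) volume := by
  have h1 : MeasurePreserving (e.toRealLinearIsometryEquiv : Eu d → Eu d) volume volume :=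
    e.toRealLinearIsometryEquiv.measurePreserving
  have h2 : MeasurePreserving (fun x : Eu d => x + e 0) volume volume :=
    measurePreserving_add_right volume (e 0)
  have h3 := h2.comp h1
  have h4 : (fun x : Eu d => x + e 0) ∘ (e.toRealLinearIsometryEquiv : Eu d → Eu d) = e := by
    funext x
    simp
  rw [h4] at h3
  exact h3

lemma leb_iso (lam : ℝ≥0) (V : Set (Eu d)) (hV : Dom V) (e : Eu d ≃ᵢ Eu d) :
    leb lam (e '' V) = (leb lam V).map e := by
  unfold leb
  rw [Measure.map_smul]
  congr 1
  have he : MeasurableEmbedding e := e.toHomeomorph.measurableEmbedding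
  have h1 : e ⁻¹' (e '' V) = V := preimage_image_eq _ e.injective
  have h2 := (iso_mp e).restrict_preimage_emb he (e '' V)
  rw [h1] at h2
  exact h2.map_eq.symm

lemma dom_iso {V : Set (Eu d)} (hV : Dom V) (e : Eu d ≃ᵢ Eu d) : Dom (e '' V) := by
  refine ⟨(e.toHomeomorph.measurableEmbedding.measurableSet_image).2 hV.1, ?_⟩
  exact e.isometry.lipschitz.isBounded_image hV.2

lemma con_iso (r : ℝ) (P : Set (Eu d)) (x y : Eu d) (e : Eu d ≃ᵢ Eu d) :
    Con (ad r) (e '' P) (e x) (e y) ↔ Con (ad r) P x y := by
  have had : ∀ a b : Eu d, ad r (e a) (e b) ↔ ad r a b := by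
    intro a b
    unfold ad
    rw [e.dist_eq]
  constructor
  · rintro ⟨a, ha, hay⟩
    have h0 : ∀ a, Relation.ReflTransGen (step (ad r) (e '' P)) (e x) a →
        ∃ b, b ∈ cl (ad r) P x ∧ e b = a := by
      intro a h
      induction h with
      | refl => exact ⟨x, Relation.ReflTransGen.refl, rfl⟩
      | tail _ hbc ih =>
        obtain ⟨b', hb', rfl⟩ := ih
        obtain ⟨h1, c', hc', rfl⟩ := hbc
        exact ⟨c', Relation.ReflTransGen.tail hb' ⟨(had _ _).1 h1, hc'⟩, rfl⟩
    have h1 := h0 a ha
    obtain ⟨b, hb, rfl⟩ := h1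
    exact ⟨b, hb, (had _ _).1 hay⟩
  · rintro ⟨a, ha, hay⟩
    refine ⟨e a, ?_, (had _ _).2 hay⟩
    have ha' : Relation.ReflTransGen (step (ad r) P) x a := ha
    clear hay ha
    induction ha' with
    | refl => exact Relation.ReflTransGen.refl
    | tail _ hbc ih =>
      exact Relation.ReflTransGen.tail ih ⟨(had _ _).2 hbc.1, mem_image_of_mem e hbc.2⟩

/-- TAUF -/
theorem tauf (hpb : HpbStatement) (slg : SlgStatement) (conm : ConMStatement)
    (img : ImgStatement) : TauFStatement := by
  intro d hd
  have hs : ∀ y : Eu d, MeasurableSet {a : Eu d | ad 1 a y} := by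
    intro y
    unfold ad
    exact measurableSet_le (measurable_id.dist measurable_const) measurable_const
  have hm : MAdj (ad 1 : Eu d → Eu d → Prop) := madj_ad 1
  refine
    { meas := ?_
      le_one := ?_
      one := ?_
      null := ?_
      symm := ?_
      mono := ?_
      monoL := ?_
      lip := ?_
      iso := ?_
      supp := ?_
      sl := ?_
      union := ?_ }
  · intro lam V hV
    have : IsFiniteMeasure (leb lam V) := finite_leb lam hV.2
    exact (conm (Eu d) (ad 1) hm).2.2.1 (leb lam V)
  · intro lam V x y hV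
    have : IsFiniteMeasure (leb lam V) := finite_leb lam hV.2
    have : NullSingletonClass (leb lam V) := noAtoms_leb hd lam V
    exact (hpb (Eu d) (leb lam V) (leb lam V) (ad 1) (fun a => ad 1 a y) x y hm (hs y)).2.1
  · intro lam V x y hV hxy
    have : IsFiniteMeasure (leb lam V) := finite_leb lam hV.2
    have : NullSingletonClass (leb lam V) := noAtoms_leb hd lam V
    exact (hpb (Eu d) (leb lam V) (leb lam V) (ad 1) (fun a => ad 1 a y) x y hm
      (hs y)).2.2.2.1 hxy
  · intro lam V x y hV h0
    have : IsFiniteMeasure (leb lam V) := finite_leb lam hV.2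
    have : NullSingletonClass (leb lam V) := noAtoms_leb hd lam V
    have h := hpb (Eu d) (leb lam V) (leb lam V) (ad 1) (fun a => ad 1 a y) x y hm (hs y)
    by_cases hxy : dist x y ≤ 1
    · rw [ind_of hxy]
      exact h.2.2.2.1 hxy
    · rw [ind_not hxy]
      have h1 := h.2.2.2.2.2.2.2.1
      rw [← tp_eq_hp] at h1
      have h2 : leb lam V = 0 := by
        unfold leb
        rw [Measure.restrict_eq_zero.2 h0, smul_zero]
      rw [h2, lintegral_zero_measure, add_zero] at h1
      have h3 : ind (ad 1 x y) = 0 := ind_not hxy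
      rw [h3] at h1
      have h4 : tau lam V x y ≤ 0 := by
        unfold tau
        rw [h2]
        exact h1
      exact le_antisymm h4 zero_le
  · intro lam V x y hV
    have : IsFiniteMeasure (leb lam V) := finite_leb lam hV.2
    have : NullSingletonClass (leb lam V) := noAtoms_leb hd lam V
    exact (hpb (Eu d) (leb lam V) (leb lam V) (ad 1) (fun a => ad 1 a y) x y hm
      (hs y)).2.2.2.2.2.2.2.2 (ad_symm 1)
  · intro lam V V' x y hV hV' hVV
    have : IsFiniteMeasure (leb lam V) := finite_leb lam hV.2
    have : NullSingletonClass (leb lam V) := noAtoms_leb hd lam V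
    have : IsFiniteMeasure (leb lam (V' \ V)) := finite_leb lam (hV'.diff hV).2
    have : NullSingletonClass (leb lam (V' \ V)) := noAtoms_leb hd lam _
    have h := (hpb (Eu d) (leb lam V) (leb lam (V' \ V)) (ad 1) (fun a => ad 1 a y) x y hm
      (hs y)).2.2.2.2.2.1
    rw [← leb_split lam hV.1 hV'.1 hVV] at h
    exact h
  · intro lam lam' V x y hV hll
    have : IsFiniteMeasure (leb lam V) := finite_leb lam hV.2
    have : NullSingletonClass (leb lam V) := noAtoms_leb hd lam V
    have : IsFiniteMeasure (leb (lam' - lam) V) := finite_leb _ hV.2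
    have : NullSingletonClass (leb (lam' - lam) V) := noAtoms_leb hd _ _
    have h := (hpb (Eu d) (leb lam V) (leb (lam' - lam) V) (ad 1) (fun a => ad 1 a y) x y hm
      (hs y)).2.2.2.2.2.1
    rw [← leb_add, add_tsub_cancel_of_le hll] at h
    exact h
  · intro lam lam' V x y hV hll
    have : IsFiniteMeasure (leb lam V) := finite_leb lam hV.2
    have : NullSingletonClass (leb lam V) := noAtoms_leb hd lam V
    have : IsFiniteMeasure (leb (lam' - lam) V) := finite_leb _ hV.2
    have : NullSingletonClass (leb (lam' - lam) V) := noAtoms_leb hd _ _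
    have h := (hpb (Eu d) (leb lam V) (leb (lam' - lam) V) (ad 1) (fun a => ad 1 a y) x y hm
      (hs y)).2.2.2.2.2.2.1
    rw [← leb_add, add_tsub_cancel_of_le hll, leb_univ] at h
    exact h
  · intro lam V x y e hV
    have : IsFiniteMeasure (leb lam V) := finite_leb lam hV.2
    have hcon : ∀ a b : Eu d, MeasurableSet {ω : Cfg (Eu d) | Con (ad 1) (pt ω) a b} := by
      intro a b
      have h1 := (conm (Eu d) (ad 1) hm).1
      exact h1.preimage (measurable_const.prodMk (measurable_const.prodMk measurable_id) :
        Measurable fun ω : Cfg (Eu d) => (a, b, ω))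
    have hf : CM fun P : Set (Eu d) => ind (Con (ad 1) P (e x) (e y)) :=
      measurable_ind (hcon (e x) (e y))
    have h := img (Eu d) (Eu d) (leb lam V) e _ e.continuous.measurable hf
    rw [← leb_iso lam V hV e, lintegral_ind (hcon (e x) (e y))] at h
    simp only [con_iso] at h
    rw [lintegral_ind (hcon x y)] at h
    exact h
  · intro lam V x y r hV hr hVr hxy
    have : IsFiniteMeasure (leb lam V) := finite_leb lam hV.2
    have : NullSingletonClass (leb lam V) := noAtoms_leb hd lam V
    have h := (hpb (Eu d) (leb lam V) (leb lam V) (ad 1) (fun a => ad 1 a y) x y hm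
      (hs y)).2.2.2.2.2.2.2.1
    have h1 : ¬ ad 1 x y := by
      unfold ad
      intro h2
      linarith
    rw [ind_not h1, zero_add, lintegral_leb] at h
    have h2 : ∫⁻ b in V, tp (ad 1) (leb lam V) x b * ind (ad 1 b y) = 0 := by
      rw [setLIntegral_congr_fun (g := fun _ => 0) hV.1]
      · simp
      · intro b hb
        have h3 : ¬ ad 1 b y := by
          unfold ad
          intro h4
          have h5 : dist b x ≤ r := hVr hb
          have h6 := dist_triangle x b y
          rw [dist_comm x b] at h6
          linarith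
        simp only [ind_not h3, mul_zero]
    rw [h2, mul_zero] at h
    exact le_antisymm h zero_le
  · intro lam V V' x y hV hV' hVV
    have : IsFiniteMeasure (leb lam V) := finite_leb lam hV.2
    have : NullSingletonClass (leb lam V) := noAtoms_leb hd lam V
    have : IsFiniteMeasure (leb lam (V' \ V)) := finite_leb lam (hV'.diff hV).2
    have : NullSingletonClass (leb lam (V' \ V)) := noAtoms_leb hd lam _
    have h := slg (Eu d) (leb lam V) (leb lam (V' \ V)) (ad 1) (fun a => ad 1 a y) x hm (hs y)
    rw [← leb_split lam hV.1 hV'.1 hVV, lintegral_leb] at h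
    exact h
  · intro lam V x y hV
    have : IsFiniteMeasure (leb lam V) := finite_leb lam hV.2
    have : NullSingletonClass (leb lam V) := noAtoms_leb hd lam V
    have h := (hpb (Eu d) (leb lam V) (leb lam V) (ad 1) (fun a => ad 1 a y) x y hm
      (hs y)).2.2.2.2.2.2.2.1
    rw [lintegral_leb] at h
    have h2 : ∫⁻ b in V, tp (ad 1) (leb lam V) x b * ind (ad 1 b y) =
        ∫⁻ b in V ∩ bal y 1, tau lam V x b := by
      have h3 : MeasurableSet (bal y 1) := (dom_bal y 1).1
      rw [inter_comm, ← Measure.restrict_restrict h3, ← lintegral_mul_ind h3]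
      refine lintegral_congr fun b => ?_
      rw [mul_comm]
      rfl
    rw [h2] at h
    exact h

end Pool.Agent.Lib.MP_5349a4_pr.H47
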